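import Pool.Agent.Helper69.MC.StB

/-!
# Project MC (MP_9583f0_gt): LSG, surgery on a closed curve
-/

set_option autoImplicit false

namespace Pool.Agent.Helper12.MC

open Set Topology Filter MeasureTheory
open Pool.Agent.Helper31.CY Pool.Agent.Helper69.MF Pool.Agent.Helper69.MC

/-- the point `(k + τ) / N` of the unit interval (projected) -/
private noncomputable def sg (N k : ℕ) (τ : ℝ) : unitInterval :=
  Set.projIcc (0 : ℝ) 1 zero_le_one ((k + τ) / N)

private lemma sg_cont (N k : ℕ) : Continuous (fun τ : unitInterval => sg N k (τ : ℝ)) := by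
  unfold sg
  exact continuous_projIcc.comp (by fun_prop)

private lemma sg_val {N k : ℕ} (hN : 0 < N) (hk : k < N) {τ : ℝ} (h0 : 0 ≤ τ) (h1 : τ ≤ 1) :
    ((sg N k τ : unitInterval) : ℝ) = (k + τ) / N := by
  unfold sg
  have hN' : (0 : ℝ) < N := by exact_mod_cast hN
  have hk' : (k : ℝ) + 1 ≤ N := by exact_mod_cast hk
  have a : (k + τ) / (N : ℝ) ∈ Set.Icc (0 : ℝ) 1 := by
    constructor
    · positivity
    · rw [div_le_one hN']; linarith
  rw [Set.projIcc_of_mem zero_le_one a]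

private lemma sg_succ (N k : ℕ) : sg N k 1 = sg N (k + 1) 0 := by
  unfold sg
  congr 1
  push_cast
  ring

private lemma decomp {N : ℕ} (hN : 0 < N) (s : unitInterval) :
    ∃ k < N, ∃ τ : unitInterval, (s : ℝ) = (k + (τ : ℝ)) / N := by
  have hN' : (0 : ℝ) < N := by exact_mod_cast hN
  by_cases h1 : (s : ℝ) < 1
  · have hs0 : 0 ≤ (N : ℝ) * s := mul_nonneg hN'.le s.2.1
    refine ⟨⌊(N : ℝ) * s⌋₊, ?_, ⟨(N : ℝ) * s - ⌊(N : ℝ) * s⌋₊, ?_, ?_⟩, ?_⟩
    · rw [Nat.floor_lt hs0]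
      nlinarith
    · have := Nat.floor_le hs0
      linarith
    · have := Nat.lt_floor_add_one ((N : ℝ) * s)
      linarith
    · simp only []
      field_simp
      ring
  · have h2 : (s : ℝ) = 1 := le_antisymm s.2.2 (not_lt.mp h1)
    refine ⟨N - 1, by omega, ⟨1, by norm_num⟩, ?_⟩
    rw [h2, Nat.cast_sub hN]
    simp only [Nat.cast_one]
    field_simp
    ring

/-- homotopy along segments -/
private lemma hot_line {Γ U : Set E3} (hU : Convex ℝ U) (hd : Disjoint U Γ)
    {γ γ' : unitInterval → E3} (hγ : Lp Γ γ) (hc : Continuous γ') (he : γ' 0 = γ' 1)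
    (h : ∀ s, γ' s = γ s ∨ (γ' s ∈ U ∧ γ s ∈ U)) : Hot Γ γ γ' := by
  refine ⟨fun q => (1 - (q.1 : ℝ)) • γ q.2 + (q.1 : ℝ) • γ' q.2, ?_, ?_, ?_, ?_, ?_⟩
  · have h1 : Continuous (fun q : unitInterval × unitInterval => γ q.2) := hγ.1.comp continuous_snd
    have h2 : Continuous (fun q : unitInterval × unitInterval => γ' q.2) := hc.comp continuous_snd
    have h3 : Continuous (fun q : unitInterval × unitInterval => (q.1 : ℝ)) :=
      continuous_subtype_val.comp continuous_fst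
    exact ((continuous_const.sub h3).smul h1).add (h3.smul h2)
  · intro s
    simp
  · intro s
    simp
  · intro t
    simp only [hγ.2.1, he]
  · rintro ⟨t, s⟩
    simp only []
    rcases h s with h | h
    · rw [h, ← add_smul]
      simpa using hγ.2.2 s
    · intro hG
      refine Set.disjoint_left.mp hd ?_ hG
      exact hU h.2 h.1 (by have := t.2.2; linarith) t.2.1 (by ring)

theorem hLSG : StPGL → StLSG := by
  intro hPGL Γ U S P Q γ hU hd hP hQ hQU hγ hSP hPQ hJ hne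
  by_cases hA : ∀ s, γ s ∉ P
  · refine ⟨γ, hot_line hU hd hγ hγ.1 hγ.2.1 (fun s => Or.inl rfl), fun s hs => hA s (hSP s hs)⟩
  by_cases hB : ∀ s, γ s ∈ P
  · obtain ⟨c, hc⟩ := hne
    exact ⟨fun _ => c, hot_line hU hd hγ continuous_const rfl
      (fun s => Or.inr ⟨hc.1, hQU (hPQ s (hB s))⟩), fun _ => hc.2⟩
  push Not at hA hB
  obtain ⟨s1, hs1⟩ := hA
  obtain ⟨s2, hs2⟩ := hB
  have hF : IsClosed (γ ⁻¹' P) := hP.preimage hγ.1
  have hO : IsOpen (γ ⁻¹' Q) := hQ.preimage hγ.1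
  -- a point of `O \ F`
  obtain ⟨s0, hs0Q, hs0P⟩ : ∃ s0, γ s0 ∈ Q ∧ γ s0 ∉ P := by
    by_contra hcon
    push Not at hcon
    have e : γ ⁻¹' P = γ ⁻¹' Q := by
      ext s
      exact ⟨fun h => hPQ s h, fun h => hcon s h⟩
    have hcl : IsClopen (γ ⁻¹' P) := ⟨hF, e ▸ hO⟩
    rcases isClopen_iff.mp hcl with h | h
    · have : s1 ∈ γ ⁻¹' P := hs1
      rw [h] at this
      exact this
    · have : s2 ∈ γ ⁻¹' P := by rw [h]; trivial
      exact hs2 this
  have hs0S : γ s0 ∉ S := fun h => hs0P (hSP s0 h)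
  -- Lebesgue number
  obtain ⟨δ, hδ, hleb⟩ := lebesgue_number_lemma_of_metric (s := (Set.univ : Set unitInterval))
    (c := fun b : Bool => if b then γ ⁻¹' Q else (γ ⁻¹' P)ᶜ) isCompact_univ
    (by
      intro b
      cases b
      · simpa using hF.isOpen_compl
      · simpa using hO)
    (by
      intro s _
      by_cases h : γ s ∈ P
      · exact Set.mem_iUnion.mpr ⟨true, by simpa using hPQ s h⟩
      · exact Set.mem_iUnion.mpr ⟨false, by simpa using h⟩)
  obtain ⟨n, hn⟩ := exists_nat_one_div_lt hδ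
  set N : ℕ := n + 1 with hNdef
  have hN : 0 < N := Nat.succ_pos n
  have hN' : (0 : ℝ) < N := by exact_mod_cast hN
  have hNδ : 1 / (N : ℝ) < δ := by
    rw [hNdef]; push_cast; exact hn
  have hpiece : ∀ k < N, (∀ τ : unitInterval, γ (sg N k τ) ∈ Q) ∨
      (∀ τ : unitInterval, γ (sg N k τ) ∉ P) := by
    intro k hk
    obtain ⟨b, hb⟩ := hleb (sg N k 0) (Set.mem_univ _)
    have hmem : ∀ τ : unitInterval, sg N k τ ∈ Metric.ball (sg N k 0) δ := by
      intro τ
      rw [Metric.mem_ball, Subtype.dist_eq, sg_val hN hk τ.2.1 τ.2.2,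
        sg_val hN hk le_rfl zero_le_one, Real.dist_eq]
      have e : ((k : ℝ) + τ) / N - (k + 0) / N = τ / N := by ring
      rw [e, abs_of_nonneg (div_nonneg τ.2.1 hN'.le)]
      refine lt_of_le_of_lt ?_ hNδ
      exact div_le_div_of_nonneg_right τ.2.2 hN'.le
    cases b
    · right
      intro τ
      have := hb (hmem τ)
      simpa using this
    · left
      intro τ
      have := hb (hmem τ)
      simpa using this
  classical
  let z : ℕ → E3 := fun k => if γ (sg N k 0) ∈ P then γ s0 else γ (sg N k 0)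
  have hzgood : ∀ k, γ (sg N k 0) ∉ P → z k = γ (sg N k 0) := fun k h => if_neg h
  have hzbad : ∀ k, γ (sg N k 0) ∈ Q → z k ∈ Q ∧ z k ∉ P ∧ z k ∉ S := by
    intro k h
    by_cases h1 : γ (sg N k 0) ∈ P
    · have : z k = γ s0 := if_pos h1
      rw [this]
      exact ⟨hs0Q, hs0P, hs0S⟩
    · rw [hzgood k h1]
      exact ⟨h, h1, fun h2 => h1 (hSP _ h2)⟩
  have hg : ∀ k, ∃ g : unitInterval → E3, Continuous g ∧ (k < N → g 0 = z k ∧ g 1 = z (k + 1) ∧
      (∀ τ, g τ ∉ S) ∧ ∀ τ : unitInterval, g τ = γ (sg N k τ) ∨ (g τ ∈ U ∧ γ (sg N k τ) ∈ U)) := by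
    intro k
    by_cases hk : k < N
    · rcases hpiece k hk with h | h
      · have h0 : γ (sg N k 0) ∈ Q := by simpa using h 0
        have h1 : γ (sg N (k + 1) 0) ∈ Q := by
          rw [← sg_succ]
          simpa using h 1
        obtain ⟨a0, a1, a2⟩ := hzbad k h0
        obtain ⟨b0, b1, b2⟩ := hzbad (k + 1) h1
        obtain ⟨p, hp⟩ := hJ _ _ a0 a1 a2 b0 b1 b2
        refine ⟨p, p.continuous, fun _ => ⟨p.source, p.target, fun τ => (hp τ).2, fun τ =>
          Or.inr ⟨(hp τ).1, hQU (h τ)⟩⟩⟩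
      · have h0 : γ (sg N k 0) ∉ P := by simpa using h 0
        have h1 : γ (sg N (k + 1) 0) ∉ P := by
          rw [← sg_succ]
          simpa using h 1
        refine ⟨fun τ => γ (sg N k τ), hγ.1.comp (sg_cont N k), fun _ => ⟨?_, ?_, ?_, ?_⟩⟩
        · rw [hzgood k h0]; simp
        · rw [hzgood (k + 1) h1, ← sg_succ]; simp
        · exact fun τ h2 => h τ (hSP _ h2)
        · exact fun τ => Or.inl rfl
    · exact ⟨fun _ => 0, continuous_const, fun h => absurd h hk⟩
  choose g hgc hgp using hg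
  obtain ⟨γ', hc', hγ'⟩ := hPGL N g hN hgc (fun k hk => by
    rw [(hgp k (by omega)).2.1, (hgp (k + 1) hk).1])
  have hcase : ∀ s : unitInterval, γ' s ∉ S ∧ (γ' s = γ s ∨ (γ' s ∈ U ∧ γ s ∈ U)) := by
    intro s
    obtain ⟨k, hk, τ, hτ⟩ := decomp hN s
    have e : sg N k τ = s := by
      apply Subtype.ext
      rw [sg_val hN hk τ.2.1 τ.2.2, hτ]
    rw [hγ' k hk s τ hτ]
    obtain ⟨-, -, h3, h4⟩ := hgp k hk
    have h5 := h4 τ
    rw [e] at h5
    exact ⟨h3 τ, h5⟩
  refine ⟨γ', hot_line hU hd hγ hc' ?_ (fun s => (hcase s).2), fun s => (hcase s).1⟩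
  have e0 : γ' 0 = z 0 := by
    rw [hγ' 0 hN 0 0 (by simp)]
    exact (hgp 0 hN).1
  have e1 : γ' 1 = z N := by
    have hk : N - 1 < N := by omega
    rw [hγ' (N - 1) hk 1 1 (by
      rw [Nat.cast_sub hN]
      simp only [Nat.cast_one, Set.Icc.coe_one]
      field_simp
      ring), (hgp (N - 1) hk).2.1]
    rfl
  have p0 : sg N 0 0 = 0 := by
    apply Subtype.ext
    rw [sg_val hN hN le_rfl zero_le_one]
    simp
  have p1 : sg N N 0 = 1 := by
    unfold sg
    have : ((N : ℝ) + 0) / N = 1 := by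
      rw [add_zero]; exact div_self hN'.ne'
    rw [this]
    exact Set.projIcc_right zero_le_one
  rw [e0, e1]
  simp only [z, p0, p1, hγ.2.1]

end Pool.Agent.Helper12.MC
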