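import Pool.Agent.Helper69.MC.StC

/-!
# Project MC, module WND: winding number one
-/

set_option autoImplicit false

open Set Topology Filter MeasureTheory
open Pool.Agent.Helper31.CY Pool.Agent.Helper69.MF Pool.Agent.Helper69.MC

namespace Pool.Agent.Helper12.MC

private lemma wnd_const (u : unitInterval → ℝ) (hu : Continuous u)
    (h : ∀ s, ∃ n : ℤ, u s = n * (2 * Real.pi)) (i j : unitInterval) : ¬ (u i < u j) := by
  intro hlt
  obtain ⟨m, hm⟩ := h i
  obtain ⟨k, hk⟩ := h j
  have hpi := Real.pi_pos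
  have hmk : m < k := by
    rw [hm, hk] at hlt
    have := lt_of_mul_lt_mul_right hlt (by positivity)
    exact_mod_cast this
  have hmk' : (m : ℝ) + 1 ≤ k := by exact_mod_cast hmk
  have hmem : u i + Real.pi ∈ Icc (u i) (u j) := by
    constructor
    · linarith
    · rw [hm, hk]
      nlinarith
  obtain ⟨s, hs⟩ := intermediate_value_univ i j hu hmem
  obtain ⟨n, hn⟩ := h s
  rw [hn, hm] at hs
  have h2 : (2 * (n : ℝ) - 2 * m - 1) * Real.pi = 0 := by linarith
  have h3 : 2 * (n : ℝ) - 2 * m - 1 = 0 := by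
    rcases mul_eq_zero.1 h2 with h4 | h4
    · exact h4
    · exact absurd h4 hpi.ne'
  have h5 : 2 * n - 2 * m - 1 = 0 := by exact_mod_cast h3
  omega

private lemma wnd_const' (u : unitInterval → ℝ) (hu : Continuous u)
    (h : ∀ s, ∃ n : ℤ, u s = n * (2 * Real.pi)) (i j : unitInterval) : u i = u j :=
  le_antisymm (not_lt.1 (wnd_const u hu h j i)) (not_lt.1 (wnd_const u hu h i j))

private lemma wnd_ivt (u : unitInterval → ℝ) (hu : Continuous u) (i j : unitInterval) (hij : i ≤ j)
    (v : ℝ) (hv : (u i ≤ v ∧ v ≤ u j) ∨ (u j ≤ v ∧ v ≤ u i)) :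
    ∃ s, i ≤ s ∧ s ≤ j ∧ u s = v := by
  have hU : Continuous (fun x : ℝ => u (projIcc (0 : ℝ) 1 zero_le_one x)) :=
    hu.comp continuous_projIcc
  have hi : u (projIcc (0 : ℝ) 1 zero_le_one (i : ℝ)) = u i := by rw [projIcc_val]
  have hj : u (projIcc (0 : ℝ) 1 zero_le_one (j : ℝ)) = u j := by rw [projIcc_val]
  have hij' : (i : ℝ) ≤ j := hij
  have hx : ∃ x ∈ Icc (i : ℝ) j, u (projIcc (0 : ℝ) 1 zero_le_one x) = v := by
    rcases hv with hv | hv
    · have := intermediate_value_Icc hij' hU.continuousOn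
      exact this ⟨by rw [hi]; exact hv.1, by rw [hj]; exact hv.2⟩
    · have := intermediate_value_Icc' hij' hU.continuousOn
      exact this ⟨by rw [hj]; exact hv.1, by rw [hi]; exact hv.2⟩
  obtain ⟨x, hx, hxv⟩ := hx
  have hx01 : x ∈ Icc (0 : ℝ) 1 := ⟨i.2.1.trans hx.1, hx.2.trans j.2.2⟩
  rw [projIcc_of_mem zero_le_one hx01] at hxv
  exact ⟨⟨x, hx01⟩, hx.1, hx.2, hxv⟩

private lemma wnd_step (u : unitInterval → ℝ) (hu : Continuous u) (i j : unitInterval) (hij : i ≤ j)
    (a b : ℤ) (ha : u i = a * Real.pi) (hb : u j = b * Real.pi) (hab : Odd (b - a))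
    (hs : ∀ s, i ≤ s → s ≤ j → Real.cos (a * Real.pi) * Real.sin (u s) ≤ 0) : b = a - 1 := by
  have hpi := Real.pi_pos
  have hcos : Real.cos (a * Real.pi) * Real.cos (a * Real.pi) = 1 := by
    have h1 : Real.sin (a * Real.pi) = 0 := Real.sin_int_mul_pi a
    have h2 := Real.sin_sq_add_cos_sq (a * Real.pi)
    rw [h1] at h2
    nlinarith
  obtain ⟨k, hk⟩ := hab
  by_contra hne
  rcases lt_or_gt_of_ne hne with hlt | hgt
  · have hb1 : b ≤ a - 3 := by omega
    have hb2 : (b : ℝ) ≤ a - 3 := by exact_mod_cast hb1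
    obtain ⟨s, h1, h2, h3⟩ := wnd_ivt u hu i j hij (a * Real.pi - 3 * Real.pi / 2)
      (Or.inr ⟨by rw [hb]; nlinarith, by rw [ha]; linarith⟩)
    have h4 := hs s h1 h2
    have h5 : Real.sin (u s) = Real.cos (a * Real.pi) := by
      rw [h3]
      have e : (a : ℝ) * Real.pi - 3 * Real.pi / 2 = (a * Real.pi + Real.pi / 2) - 2 * Real.pi := by ring
      rw [e, Real.sin_sub_two_pi, Real.sin_add_pi_div_two]
    rw [h5, hcos] at h4
    linarith
  · have hb1 : a + 1 ≤ b := by omega
    have hb2 : (a : ℝ) + 1 ≤ b := by exact_mod_cast hb1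
    obtain ⟨s, h1, h2, h3⟩ := wnd_ivt u hu i j hij (a * Real.pi + Real.pi / 2)
      (Or.inl ⟨by rw [ha]; linarith, by rw [hb]; nlinarith⟩)
    have h4 := hs s h1 h2
    have h5 : Real.sin (u s) = Real.cos (a * Real.pi) := by
      rw [h3, Real.sin_add_pi_div_two]
    rw [h5, hcos] at h4
    linarith

private lemma wnd_lift (H : unitInterval × unitInterval → ℝ × ℝ) (hc : Continuous H)
    (h0 : ∀ q, H q ≠ (0, 0)) :
    ∃ θ : unitInterval × unitInterval → ℝ, Continuous θ ∧ ∃ r : unitInterval × unitInterval → ℝ,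
      (∀ q, 0 < r q) ∧ ∀ q, (H q).1 = r q * Real.cos (θ q) ∧ (H q).2 = r q * Real.sin (θ q) := by
  set r : unitInterval × unitInterval → ℝ := fun q => Real.sqrt ((H q).1 ^ 2 + (H q).2 ^ 2) with hr
  have hrc : Continuous r := by
    refine Real.continuous_sqrt.comp ?_
    exact ((continuous_fst.comp hc).pow 2).add ((continuous_snd.comp hc).pow 2)
  have hpos : ∀ q, 0 < r q := by
    intro q
    refine Real.sqrt_pos.2 ?_
    rcases (add_nonneg (sq_nonneg (H q).1) (sq_nonneg (H q).2)).lt_or_eq with h | h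
    · exact h
    · exfalso
      have h1 : (H q).1 = 0 := by nlinarith [sq_nonneg (H q).1, sq_nonneg (H q).2]
      have h2 : (H q).2 = 0 := by nlinarith [sq_nonneg (H q).1, sq_nonneg (H q).2]
      exact h0 q (Prod.ext h1 h2)
  have hsq : ∀ q, r q ^ 2 = (H q).1 ^ 2 + (H q).2 ^ 2 := by
    intro q
    rw [hr]
    exact Real.sq_sqrt (by positivity)
  have hmem : ∀ q, (⟨(H q).1 / r q, (H q).2 / r q⟩ : ℂ) ∈ Submonoid.unitSphere ℂ := by
    intro q
    have h1 := hpos q
    have h2 := hsq q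
    have h3 : r q ≠ 0 := h1.ne'
    refine mem_sphere_zero_iff_norm.2 ?_
    rw [Complex.norm_def]
    rw [Real.sqrt_eq_one, Complex.normSq_mk]
    field_simp
    linarith
  let c : unitInterval × unitInterval → Circle := fun q => ⟨⟨(H q).1 / r q, (H q).2 / r q⟩, hmem q⟩
  have hcc : Continuous c := by
    refine Continuous.subtype_mk ?_ _
    have e0 : Continuous (fun q => (H q).1 / r q) :=
      (continuous_fst.comp hc).div hrc (fun q => (hpos q).ne')
    have e1 : Continuous (fun q => (H q).2 / r q) :=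
      (continuous_snd.comp hc).div hrc (fun q => (hpos q).ne')
    exact Complex.equivRealProdCLM.symm.continuous.comp (e0.prodMk e1)
  obtain ⟨a, ha⟩ : ∃ a : ℝ, c (0, 0) = Circle.exp a :=
    ⟨Complex.arg (c (0, 0)), (Circle.exp_arg _).symm⟩
  have hc0 : Continuous (fun s : unitInterval => c (0, s)) := by fun_prop
  obtain ⟨Γ, hΓ, -⟩ := Circle.isCoveringMap_exp.exists_path_lifts
    (⟨fun s : unitInterval => c (0, s), hc0⟩ : C(unitInterval, Circle)) a ha
  have hΓ' : ∀ s : unitInterval, (⟨c, hcc⟩ : C(unitInterval × unitInterval, Circle)) (0, s) =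
      Circle.exp (Γ s) := by
    intro s
    exact (congrFun hΓ s).symm
  set Θ := Circle.isCoveringMap_exp.liftHomotopy
    (⟨c, hcc⟩ : C(unitInterval × unitInterval, Circle)) Γ hΓ' with hΘ
  have hΘl : ∀ q, Circle.exp (Θ q) = c q := by
    intro q
    exact congrFun (Circle.isCoveringMap_exp.liftHomotopy_lifts
      (⟨c, hcc⟩ : C(unitInterval × unitInterval, Circle)) Γ hΓ') q
  refine ⟨fun q => Θ q, Θ.continuous, r, hpos, ?_⟩
  intro q
  have h2 : ((Circle.exp (Θ q) : Circle) : ℂ) = ⟨(H q).1 / r q, (H q).2 / r q⟩ := by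
    rw [hΘl]
  rw [Circle.coe_exp] at h2
  have h3 : r q ≠ 0 := (hpos q).ne'
  constructor
  · have := congrArg Complex.re h2
    rw [Complex.exp_ofReal_mul_I_re] at this
    have h4 : Real.cos (Θ q) = (H q).1 / r q := this
    rw [h4, mul_div_cancel₀ _ h3]
  · have := congrArg Complex.im h2
    rw [Complex.exp_ofReal_mul_I_im] at this
    have h4 : Real.sin (Θ q) = (H q).2 / r q := this
    rw [h4, mul_div_cancel₀ _ h3]

private lemma wnd_eq {r r' a b : ℝ} (hr : 0 < r) (hr' : 0 < r')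
    (hc : r * Real.cos a = r' * Real.cos b) (hs : r * Real.sin a = r' * Real.sin b) :
    ∃ n : ℤ, a - b = n * (2 * Real.pi) := by
  have h1 : r = r' := by
    have e1 : r ^ 2 = r' ^ 2 := by
      have := Real.sin_sq_add_cos_sq a
      have := Real.sin_sq_add_cos_sq b
      have e2 : r ^ 2 = (r * Real.cos a) ^ 2 + (r * Real.sin a) ^ 2 := by
        have h := Real.sin_sq_add_cos_sq a
        linear_combination (-(r ^ 2)) * h
      have e3 : r' ^ 2 = (r' * Real.cos b) ^ 2 + (r' * Real.sin b) ^ 2 := by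
        have h := Real.sin_sq_add_cos_sq b
        linear_combination (-(r' ^ 2)) * h
      rw [e2, e3, hc, hs]
    nlinarith
  subst h1
  have h2 : Real.cos a = Real.cos b := mul_left_cancel₀ hr.ne' hc
  have h3 : Real.sin a = Real.sin b := mul_left_cancel₀ hr.ne' hs
  have h4 : Real.cos (a - b) = 1 := by
    rw [Real.cos_sub, h2, h3]
    have := Real.sin_sq_add_cos_sq b
    nlinarith
  obtain ⟨n, hn⟩ := (Real.cos_eq_one_iff _).1 h4
  exact ⟨n, hn.symm⟩

/-- WND (winding number one) -/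
theorem hWND : StWND := by
  intro H s1 hc h0 hcl hcon h00 h00' h1 h1' hup hdn
  obtain ⟨θ, hθ, r, hr, hH⟩ := wnd_lift H hc h0
  -- the increment along the curves
  have hg : θ (0, 1) - θ (0, 0) = θ (1, 1) - θ (1, 0) := by
    refine wnd_const' (fun t => θ (t, 1) - θ (t, 0)) (by fun_prop) ?_ 0 1
    intro t
    refine wnd_eq (hr (t, 1)) (hr (t, 0)) ?_ ?_
    · rw [← (hH (t, 1)).1, ← (hH (t, 0)).1, hcl t]
    · rw [← (hH (t, 1)).2, ← (hH (t, 0)).2, hcl t]
  have hg1 : θ (1, 0) - θ (1, 0) = θ (1, 1) - θ (1, 0) := by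
    refine wnd_const' (fun s => θ (1, s) - θ (1, 0)) (by fun_prop) ?_ 0 1
    intro s
    refine wnd_eq (hr (1, s)) (hr (1, 0)) ?_ ?_
    · rw [← (hH (1, s)).1, ← (hH (1, 0)).1, hcon s]
    · rw [← (hH (1, s)).2, ← (hH (1, 0)).2, hcon s]
  -- the values at the three points
  have hodd : ∀ q, (H q).1 < 0 → (H q).2 = 0 → ∃ a : ℤ, Odd a ∧ θ q = a * Real.pi := by
    intro q hq hq'
    have hsin : Real.sin (θ q) = 0 := by
      have := (hH q).2
      rw [hq'] at this
      rcases mul_eq_zero.1 this.symm with h | h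
      · exact absurd h (hr q).ne'
      · exact h
    obtain ⟨a, ha⟩ := Real.sin_eq_zero_iff.1 hsin
    refine ⟨a, ?_, ha.symm⟩
    rcases Int.even_or_odd a with he | ho
    · exfalso
      have hcos : Real.cos (θ q) = 1 := by
        rw [← ha, Real.cos_int_mul_pi]
        exact he.neg_one_zpow
      have := (hH q).1
      rw [hcos, mul_one] at this
      linarith [hr q]
    · exact ho
  have heven : ∀ q, 0 < (H q).1 → (H q).2 = 0 → ∃ a : ℤ, Even a ∧ θ q = a * Real.pi := by
    intro q hq hq'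
    have hsin : Real.sin (θ q) = 0 := by
      have := (hH q).2
      rw [hq'] at this
      rcases mul_eq_zero.1 this.symm with h | h
      · exact absurd h (hr q).ne'
      · exact h
    obtain ⟨a, ha⟩ := Real.sin_eq_zero_iff.1 hsin
    refine ⟨a, ?_, ha.symm⟩
    rcases Int.even_or_odd a with he | ho
    · exact he
    · exfalso
      have hcos : Real.cos (θ q) = -1 := by
        rw [← ha, Real.cos_int_mul_pi]
        exact ho.neg_one_zpow
      have := (hH q).1
      rw [hcos] at this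
      linarith [hr q]
  obtain ⟨a, hao, ha⟩ := hodd (0, 0) h00 h00'
  obtain ⟨b, hbe, hb⟩ := heven (0, s1) h1 h1'
  obtain ⟨c, hco, hcv⟩ := hodd (0, 1) (by rw [← hcl 0]; exact h00) (by rw [← hcl 0]; exact h00')
  have hθ0 : Continuous (fun s : unitInterval => θ (0, s)) := by fun_prop
  have hba : b = a - 1 := by
    refine wnd_step (fun s => θ (0, s)) hθ0 0 s1 unitInterval.nonneg' a b ha hb ?_ ?_
    · exact hbe.sub_odd hao
    · intro s _ hs
      have hcos : Real.cos (a * Real.pi) = -1 := by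
        rw [Real.cos_int_mul_pi]
        exact hao.neg_one_zpow
      have h2 := hup s hs
      rw [(hH (0, s)).2] at h2
      have h3 : 0 ≤ Real.sin (θ (0, s)) := nonneg_of_mul_nonneg_right h2 (hr (0, s))
      show Real.cos (a * Real.pi) * Real.sin (θ (0, s)) ≤ 0
      rw [hcos]
      linarith
  have hcb : c = b - 1 := by
    refine wnd_step (fun s => θ (0, s)) hθ0 s1 1 unitInterval.le_one' b c hb hcv ?_ ?_
    · exact hco.sub_even hbe
    · intro s hs _
      have hcos : Real.cos (b * Real.pi) = 1 := by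
        rw [Real.cos_int_mul_pi]
        exact hbe.neg_one_zpow
      have h2 := hdn s hs
      rw [(hH (0, s)).2] at h2
      have h3 : Real.sin (θ (0, s)) ≤ 0 := nonpos_of_mul_nonpos_right h2 (hr (0, s))
      show Real.cos (b * Real.pi) * Real.sin (θ (0, s)) ≤ 0
      rw [hcos]
      linarith
  have hfin : (c : ℝ) * Real.pi = a * Real.pi := by
    rw [← hcv, ← ha]
    linarith
  have hca : (c : ℝ) = a := mul_right_cancel₀ Real.pi_pos.ne' hfin
  have hca' : c = a := by exact_mod_cast hca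
  omega

end Pool.Agent.Helper12.MC
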